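import Pool.Agent.Helper70.SUB.SheetR

/-!
Project SUB, row EVAL: the size of the values of a multihomogeneous polynomial.
-/

set_option autoImplicit false

namespace Pool.Agent.Helper77.SUB

open Finset Pool.Agent.Helper70.SUB

/-! ### absolute values as monoid homomorphisms -/

theorem av_nonneg (hAV : ST_AV) (v : Option ℕ) (x : ℚ) : 0 ≤ av v x := hAV.1 v x

theorem av_zero (hAV : ST_AV) (v : Option ℕ) : av v 0 = 0 := hAV.2.1 v

theorem av_mul (hAV : ST_AV) {S : Finset ℕ} (hS : ∀ p ∈ S, p.Prime) {v : Option ℕ}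
    (hv : v ∈ plc S) (x y : ℚ) : av v (x * y) = av v x * av v y :=
  (hAV.2.2 S hS).2.1 v hv x y

theorem av_pos (hAV : ST_AV) {S : Finset ℕ} (hS : ∀ p ∈ S, p.Prime) {v : Option ℕ}
    (hv : v ∈ plc S) {x : ℚ} (hx : x ≠ 0) : 0 < av v x :=
  (hAV.2.2 S hS).1 v hv x hx

theorem av_one (hAV : ST_AV) {S : Finset ℕ} (hS : ∀ p ∈ S, p.Prime) {v : Option ℕ}
    (hv : v ∈ plc S) : av v 1 = 1 := by
  have h1 := av_mul hAV hS hv 1 1
  have h2 := av_pos hAV hS hv (one_ne_zero : (1 : ℚ) ≠ 0)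
  rw [mul_one] at h1
  have h3 : av v 1 * 1 = av v 1 * av v 1 := by rw [mul_one]; exact h1
  exact (mul_left_cancel₀ h2.ne' h3).symm

theorem av_pow (hAV : ST_AV) {S : Finset ℕ} (hS : ∀ p ∈ S, p.Prime) {v : Option ℕ}
    (hv : v ∈ plc S) (x : ℚ) (k : ℕ) : av v (x ^ k) = av v x ^ k := by
  induction k with
  | zero => rw [pow_zero, pow_zero]; exact av_one hAV hS hv
  | succ k ih => rw [pow_succ, pow_succ, av_mul hAV hS hv, ih]

theorem av_prod (hAV : ST_AV) {S : Finset ℕ} (hS : ∀ p ∈ S, p.Prime) {v : Option ℕ}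
    (hv : v ∈ plc S) {ι : Type} (s : Finset ι) (f : ι → ℚ) :
    av v (∏ i ∈ s, f i) = ∏ i ∈ s, av v (f i) := by
  classical
  induction s using Finset.induction_on with
  | empty => rw [Finset.prod_empty, Finset.prod_empty]; exact av_one hAV hS hv
  | insert a s ha ih => rw [Finset.prod_insert ha, Finset.prod_insert ha, av_mul hAV hS hv, ih]

/-! ### evaluation of `lsub` -/

theorem aeval_lsub {m n : ℕ} (N : Matrix (Fin n) (Fin n) ℤ) (F : MvPolynomial (Fin m × Fin n) ℤ)
    (y : Fin m × Fin n → ℚ) :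
    MvPolynomial.aeval y (lsub N F) =
      MvPolynomial.aeval (fun hi : Fin m × Fin n => ∑ k, (N hi.2 k : ℚ) * y (hi.1, k)) F := by
  have h : (MvPolynomial.aeval y : MvPolynomial (Fin m × Fin n) ℤ →ₐ[ℤ] ℚ).comp (lsub N) =
      MvPolynomial.aeval (fun hi : Fin m × Fin n => ∑ k, (N hi.2 k : ℚ) * y (hi.1, k)) := by
    apply MvPolynomial.algHom_ext
    intro i
    simp [lsub]
  exact DFunLike.congr_fun h F

theorem aeval_eq_sum {σ : Type} [Fintype σ] (y : σ → ℚ) (F : MvPolynomial σ ℤ) :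
    MvPolynomial.aeval y F = ∑ J ∈ F.support, ((F.coeff J : ℤ) : ℚ) * ∏ s, y s ^ J s := by
  rw [MvPolynomial.aeval_def, MvPolynomial.eval₂_eq']
  simp

theorem eval_cast {σ : Type} [Fintype σ] (y : σ → ℤ) (F : MvPolynomial σ ℤ) :
    ((MvPolynomial.eval y F : ℤ) : ℚ) = MvPolynomial.aeval (fun s => (y s : ℚ)) F := by
  rw [aeval_eq_sum, MvPolynomial.eval_eq']
  push_cast
  rfl

theorem aeval_smul_of_MH {m n : ℕ} {r : Fin m → ℕ} {F : MvPolynomial (Fin m × Fin n) ℤ}
    (hF : MH r F) (d : ℚ) (x : Fin m × Fin n → ℚ) :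
    MvPolynomial.aeval (fun s => d * x s) F = d ^ (∑ h, r h) * MvPolynomial.aeval x F := by
  rw [aeval_eq_sum, aeval_eq_sum, Finset.mul_sum]
  apply Finset.sum_congr rfl
  intro J hJ
  have h1 := hF J (MvPolynomial.mem_support_iff.mp hJ)
  have h2 : ∏ s, (d * x s) ^ J s = d ^ (∑ h, r h) * ∏ s, x s ^ J s := by
    simp_rw [mul_pow]
    rw [Finset.prod_mul_distrib, Finset.prod_pow_eq_pow_sum]
    have h3 : ∑ s : Fin m × Fin n, J s = ∑ h, r h := by
      rw [Fintype.sum_prod_type]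
      exact Finset.sum_congr rfl fun h _ => h1 h
    rw [h3]
  rw [h2]; ring

theorem key_identity {m n : ℕ} (A : Matrix (Fin n) (Fin n) ℚ) (N : Matrix (Fin n) (Fin n) ℤ)
    (d : ℕ) (hNA : N.map (Int.cast : ℤ → ℚ) * A = (d : ℚ) • 1) {r : Fin m → ℕ}
    {F : MvPolynomial (Fin m × Fin n) ℤ} (hF : MH r F) (x : Fin m → Fin n → ℤ) :
    (d : ℚ) ^ (∑ h, r h) * ((MvPolynomial.eval (bl x) F : ℤ) : ℚ) =
      ∑ J ∈ (lsub N F).support, (((lsub N F).coeff J : ℤ) : ℚ) *
        ∏ hi : Fin m × Fin n, (A.mulVec (cv (x hi.1)) hi.2) ^ J hi := by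
  rw [← aeval_eq_sum (fun hi : Fin m × Fin n => A.mulVec (cv (x hi.1)) hi.2), aeval_lsub,
    eval_cast, ← aeval_smul_of_MH hF]
  apply congrArg (fun f => (MvPolynomial.aeval f : MvPolynomial (Fin m × Fin n) ℤ →ₐ[ℤ] ℚ) F)
  funext hi
  have h1 : (N.map (Int.cast : ℤ → ℚ) * A).mulVec (cv (x hi.1)) hi.2 =
      (((d : ℚ) • (1 : Matrix (Fin n) (Fin n) ℚ)).mulVec (cv (x hi.1))) hi.2 := by rw [hNA]
  rw [← Matrix.mulVec_mulVec, Matrix.smul_mulVec, Matrix.one_mulVec] at h1
  simp only [Matrix.mulVec, dotProduct, Matrix.map_apply, Pi.smul_apply, smul_eq_mul] at h1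
  simp only [Matrix.mulVec, dotProduct]
  rw [h1]
  rfl

/-- (EVAL) -/
theorem EVAL (hAV : ST_AV) (hLSB : ST_LSB) : ST_EVAL := by
  intro m n S hS v hv A N d C hd1 hNA hdC hNC hC1 r F x b hF hb hJ
  have hd0 : (0 : ℝ) < d := by exact_mod_cast (Nat.lt_of_lt_of_le Nat.zero_lt_one hd1)
  have hdQ : (d : ℚ) ≠ 0 := by
    have : (0 : ℚ) < d := by exact_mod_cast (Nat.lt_of_lt_of_le Nat.zero_lt_one hd1)
    exact this.ne'
  have hC0 : (0 : ℝ) ≤ C := le_trans zero_le_one hC1
  have key := key_identity A N d hNA hF x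
  set R := ∑ h, r h with hR
  set e : ℚ := ((MvPolynomial.eval (bl x) F : ℤ) : ℚ) with he
  have hkey2 : av v ((d : ℚ) ^ R * e) = av v (d : ℚ) ^ R * av v e := by
    rw [av_mul hAV hS hv, av_pow hAV hS hv]
  have hterm : ∀ J, av v ((((lsub N F).coeff J : ℤ) : ℚ) *
      ∏ hi : Fin m × Fin n, (A.mulVec (cv (x hi.1)) hi.2) ^ J hi) =
      av v (((lsub N F).coeff J : ℤ) : ℚ) *
        ∏ hi : Fin m × Fin n, (av v (A.mulVec (cv (x hi.1)) hi.2)) ^ (J hi) := by
    intro J
    rw [av_mul hAV hS hv, av_prod hAV hS hv]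
    congr 1
    exact Finset.prod_congr rfl fun hi _ => av_pow hAV hS hv _ _
  rcases v with _ | p
  · -- the real place
    obtain ⟨a, haN, haC⟩ : ∃ a : ℤ, (∀ i k, |N i k| ≤ a) ∧ ((n : ℝ) * a ≤ C) ∧ 0 ≤ a := by
      rcases Nat.eq_zero_or_pos n with hn | hn
      · subst hn
        refine ⟨0, fun i => i.elim0, ?_, le_rfl⟩
        simpa using hC0
      · have : Nonempty (Fin n × Fin n) := ⟨(⟨0, hn⟩, ⟨0, hn⟩)⟩
        obtain ⟨ik, _, hik⟩ := Finset.exists_max_image (Finset.univ : Finset (Fin n × Fin n))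
          (fun ik => |N ik.1 ik.2|) Finset.univ_nonempty
        refine ⟨|N ik.1 ik.2|, fun i k => hik (i, k) (Finset.mem_univ _), ?_, abs_nonneg _⟩
        have := hNC ik.1 ik.2
        push_cast
        exact this
    obtain ⟨haC, ha0⟩ := haC
    have hl := (hLSB m n r F N a haN hF).2
    have hl' : (l1 (lsub N F) : ℝ) ≤ C ^ R * (l1 F : ℝ) := by
      have h1 : ((l1 (lsub N F) : ℤ) : ℝ) ≤ (((n : ℤ) * a) ^ R * l1 F : ℤ) := by exact_mod_cast hl
      refine le_trans h1 ?_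
      push_cast
      have h2 : (0 : ℝ) ≤ (l1 F : ℝ) := by
        have : (0 : ℤ) ≤ l1 F := Finset.sum_nonneg fun J _ => abs_nonneg _
        exact_mod_cast this
      have h3 : (0 : ℝ) ≤ (n : ℝ) * a := by
        have : (0 : ℝ) ≤ (a : ℝ) := by exact_mod_cast ha0
        positivity
      exact mul_le_mul_of_nonneg_right (pow_le_pow_left₀ h3 haC R) h2
    have h4 : av none ((d : ℚ) ^ R * e) ≤ (l1 (lsub N F) : ℝ) * b := by
      rw [key]
      have h5 : av none (∑ J ∈ (lsub N F).support, (((lsub N F).coeff J : ℤ) : ℚ) *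
          ∏ hi : Fin m × Fin n, (A.mulVec (cv (x hi.1)) hi.2) ^ J hi) ≤
          ∑ J ∈ (lsub N F).support, av none ((((lsub N F).coeff J : ℤ) : ℚ) *
          ∏ hi : Fin m × Fin n, (A.mulVec (cv (x hi.1)) hi.2) ^ J hi) := by
        simp only [av]
        rw [Rat.cast_sum]
        exact Finset.abs_sum_le_sum_abs _ _
      refine le_trans h5 ?_
      have h6 : (l1 (lsub N F) : ℝ) = ∑ J ∈ (lsub N F).support, |(((lsub N F).coeff J : ℤ) : ℝ)| := by
        unfold l1
        push_cast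
        rfl
      rw [h6, Finset.sum_mul]
      apply Finset.sum_le_sum
      intro J hJs
      rw [hterm J]
      have h7 : av none (((lsub N F).coeff J : ℤ) : ℚ) = |(((lsub N F).coeff J : ℤ) : ℝ)| := by
        simp [av]
      rw [h7]
      exact mul_le_mul_of_nonneg_left (hJ J (MvPolynomial.mem_support_iff.mp hJs)) (abs_nonneg _)
    rw [hkey2] at h4
    have h8 : (1 : ℝ) ≤ av none (d : ℚ) ^ R := by
      apply one_le_pow₀
      simp only [av]
      rw [Rat.cast_natCast, abs_of_pos hd0]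
      exact_mod_cast hd1
    have h9 : av none e ≤ av none (d : ℚ) ^ R * av none e :=
      le_mul_of_one_le_left (av_nonneg hAV _ _) h8
    calc av none e ≤ (l1 (lsub N F) : ℝ) * b := le_trans h9 h4
      _ ≤ C ^ R * (l1 F : ℝ) * b := mul_le_mul_of_nonneg_right hl' hb
  · -- a finite place
    have hp : p ∈ S := by
      unfold plc at hv
      exact Finset.some_mem_insertNone.mp hv
    obtain ⟨_, _, _, hult, hint, hprod, _, _, hsum⟩ := hAV.2.2 S hS
    rcases eq_or_ne F 0 with hF0 | hF0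
    · have : e = 0 := by rw [he, hF0]; simp
      rw [this, av_zero hAV]
      have h2 : (0 : ℝ) ≤ (l1 F : ℝ) := by
        have : (0 : ℤ) ≤ l1 F := Finset.sum_nonneg fun J _ => abs_nonneg _
        exact_mod_cast this
      positivity
    have hl1 : (1 : ℝ) ≤ (l1 F : ℝ) := by
      have h1 : (1 : ℤ) ≤ l1 F := by
        obtain ⟨J, hJs⟩ := MvPolynomial.ne_zero_iff.mp hF0
        have h2 : |F.coeff J| ≤ l1 F :=
          Finset.single_le_sum (f := fun J => |F.coeff J|) (fun J _ => abs_nonneg _)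
            (MvPolynomial.mem_support_iff.mpr hJs)
        exact le_trans (Int.one_le_abs hJs) h2
      exact_mod_cast h1
    have h4 : av (some p) ((d : ℚ) ^ R * e) ≤ b := by
      rw [key]
      have h5 := hsum (some p) hv (Fin m × Fin n →₀ ℕ) (lsub N F).support
        (fun J => (((lsub N F).coeff J : ℤ) : ℚ) *
          ∏ hi : Fin m × Fin n, (A.mulVec (cv (x hi.1)) hi.2) ^ J hi) b hb ?_
      · simpa using h5
      · intro J hJs
        rw [hterm J]
        have h6 := hJ J (MvPolynomial.mem_support_iff.mp hJs)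
        have h7 := hint p hp ((lsub N F).coeff J)
        calc av (some p) (((lsub N F).coeff J : ℤ) : ℚ) *
            ∏ hi : Fin m × Fin n, (av (some p) (A.mulVec (cv (x hi.1)) hi.2)) ^ (J hi)
            ≤ 1 * b := mul_le_mul h7 h6
              (Finset.prod_nonneg fun hi _ => pow_nonneg (av_nonneg hAV _ _) _) zero_le_one
          _ = b := one_mul b
    rw [hkey2] at h4
    have h8 : 1 ≤ av (some p) (d : ℚ) * d := by
      have h9 := hprod p hp (d : ℤ) (by exact_mod_cast (Nat.one_le_iff_ne_zero.mp hd1))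
      rw [Int.cast_natCast, Int.cast_natCast, abs_of_pos hd0] at h9
      exact h9
    have h10 : 1 ≤ av (some p) (d : ℚ) ^ R * C ^ R := by
      rw [← mul_pow]
      apply one_le_pow₀
      exact le_trans h8 (mul_le_mul_of_nonneg_left hdC (av_nonneg hAV _ _))
    have h11 : av (some p) e ≤ C ^ R * b := by
      calc av (some p) e = 1 * av (some p) e := (one_mul _).symm
        _ ≤ (av (some p) (d : ℚ) ^ R * C ^ R) * av (some p) e :=
            mul_le_mul_of_nonneg_right h10 (av_nonneg hAV _ _)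
        _ = C ^ R * (av (some p) (d : ℚ) ^ R * av (some p) e) := by ring
        _ ≤ C ^ R * b := mul_le_mul_of_nonneg_left h4 (pow_nonneg hC0 R)
    calc av (some p) e ≤ C ^ R * b := h11
      _ = C ^ R * 1 * b := by ring
      _ ≤ C ^ R * (l1 F : ℝ) * b := by
          apply mul_le_mul_of_nonneg_right _ hb
          exact mul_le_mul_of_nonneg_left hl1 (pow_nonneg hC0 R)

end Pool.Agent.Helper77.SUB
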