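import Pool.Agent.Helper70.SUB.SheetR

/-!
Project SUB, row HGT: two coordinates carry the height.
-/

set_option autoImplicit false

namespace Pool.Agent.Helper77.SUB

open Finset Pool.Agent.Helper70.SUB

/-- (HGT) -/
theorem HGT : ST_HGT := by
  intro k l hk hl
  classical
  obtain ⟨i0, _, hi0⟩ := Finset.exists_max_image (Finset.univ : Finset (Fin (k + 1)))
    (fun i => |l i|) Finset.univ_nonempty
  have hmax : ∀ i, |l i| ≤ |l i0| := fun i => hi0 i (Finset.mem_univ i)
  have hne : l i0 ≠ 0 := by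
    intro h0
    have h1 : ∀ i, (0 : ℤ) ∣ l i := by
      intro i
      have h2 := hmax i
      rw [h0, abs_zero] at h2
      have h3 : l i = 0 := abs_eq_zero.mp (le_antisymm h2 (abs_nonneg _))
      rw [h3]
    have h2 := hl 0 h1
    exact not_isUnit_zero h2
  set a : ℕ := (l i0).natAbs with ha
  have ha0 : a ≠ 0 := Int.natAbs_ne_zero.mpr hne
  set g : Fin (k + 1) → ℕ := fun i => Int.gcd (l i0) (l i) with hg
  set q : Fin (k + 1) → ℕ := fun i => a / g i with hq
  have hga : ∀ i, g i ∣ a := fun i => by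
    have h1 : ((g i : ℕ) : ℤ) ∣ l i0 := Int.gcd_dvd_left ..
    exact Int.natCast_dvd.mp h1
  have hgq : ∀ i, g i * q i = a := fun i => Nat.mul_div_cancel' (hga i)
  set s := Finset.univ.erase i0 with hs
  have hcard : s.card = k := by
    rw [hs, Finset.card_erase_of_mem (Finset.mem_univ _), Finset.card_univ, Fintype.card_fin]
    omega
  have hsne : s.Nonempty := by
    rw [← Finset.card_pos, hcard]
    omega
  have hgcd : s.gcd g = 1 := by
    have h1 : IsUnit ((s.gcd g : ℕ) : ℤ) := by
      apply hl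
      intro i
      rcases eq_or_ne i i0 with hi | hi
      · obtain ⟨j, hj⟩ := hsne
        have h2 : s.gcd g ∣ g j := Finset.gcd_dvd hj
        have h3 : s.gcd g ∣ a := h2.trans (hga j)
        rw [hi]
        exact Int.natCast_dvd.mpr h3
      · have h2 : s.gcd g ∣ g i := Finset.gcd_dvd (Finset.mem_erase.mpr ⟨hi, Finset.mem_univ i⟩)
        have h3 : ((g i : ℕ) : ℤ) ∣ l i := Int.gcd_dvd_right ..
        exact (Int.natCast_dvd_natCast.mpr h2).trans h3
    have h2 := Int.isUnit_iff_natAbs_eq.mp h1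
    rwa [Int.natAbs_natCast] at h2
  set W := ∏ i ∈ s, q i with hW
  have hdvd : a ∣ W := by
    have h1 : a ∣ s.gcd (fun i => g i * W) := by
      apply Finset.dvd_gcd
      intro i hi
      rw [← hgq i]
      exact Nat.mul_dvd_mul_left _ (Finset.dvd_prod_of_mem q hi)
    rw [Finset.gcd_mul_right, hgcd] at h1
    simpa using h1
  have hq1 : ∀ i, 1 ≤ q i := by
    intro i
    apply Nat.one_le_iff_ne_zero.mpr
    intro h0
    have := hgq i
    rw [h0, mul_zero] at this
    exact ha0 this.symm
  have hW0 : 0 < W := Finset.prod_pos fun i _ => hq1 i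
  obtain ⟨i1, hi1, hi1m⟩ := Finset.exists_max_image s q hsne
  refine ⟨i0, i1, ?_, hne, hmax, ?_⟩
  · intro h
    rw [← h] at hi1
    exact (Finset.notMem_erase i0 Finset.univ) hi1
  · have h1 : a ≤ q i1 ^ k := by
      calc a ≤ W := Nat.le_of_dvd hW0 hdvd
        _ ≤ ∏ _i ∈ s, q i1 := Finset.prod_le_prod' fun i hi => hi1m i hi
        _ = q i1 ^ k := by rw [Finset.prod_const, hcard]
    have h2 : |l i0| = (a : ℤ) := by rw [ha]; exact Int.abs_eq_natAbs _
    rw [h2]
    have h3 : (a : ℤ) / (Int.gcd (l i0) (l i1) : ℤ) = ((q i1 : ℕ) : ℤ) := by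
      rw [hq]
      simp only [hg]
      push_cast
      rfl
    rw [h3]
    exact_mod_cast h1

end Pool.Agent.Helper77.SUB
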