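import Pool.Agent.Helper77.SUB.EVAL

/-!
Project SUB, row VAN: vanishing at small points.
-/

set_option autoImplicit false

namespace Pool.Agent.Helper77.SUB

open Finset Pool.Agent.Helper70.SUB

theorem toQ_coeff {σ : Type} (G : MvPolynomial σ ℤ) (J : σ →₀ ℕ) :
    (toQ G).coeff J = ((G.coeff J : ℤ) : ℚ) := by
  unfold toQ
  rw [MvPolynomial.coeff_map]
  rfl

theorem toQ_lsub {m n : ℕ} (N : Matrix (Fin n) (Fin n) ℤ) (P : MvPolynomial (Fin m × Fin n) ℤ) :
    toQ (lsub N P) = lsub (N.map (Int.cast : ℤ → ℚ)) (toQ P) := by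
  have h : (toQ : MvPolynomial (Fin m × Fin n) ℤ →+* _).comp
      (lsub N : MvPolynomial (Fin m × Fin n) ℤ →ₐ[ℤ] _).toRingHom =
      (lsub (N.map (Int.cast : ℤ → ℚ)) : MvPolynomial (Fin m × Fin n) ℚ →ₐ[ℚ] _).toRingHom.comp
        (toQ : MvPolynomial (Fin m × Fin n) ℤ →+* _) := by
    apply MvPolynomial.ringHom_ext
    · intro z
      simp [toQ, lsub]
    · intro i
      simp [toQ, lsub]
  exact DFunLike.congr_fun h P

/-- clearing denominators in the inverse of a matrix -/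
theorem exists_int_inv {n : ℕ} (A : Matrix (Fin n) (Fin n) ℚ) (hA : A.det ≠ 0) :
    ∃ (N : Matrix (Fin n) (Fin n) ℤ) (d : ℕ), 1 ≤ d ∧
      N.map (Int.cast : ℤ → ℚ) * A = (d : ℚ) • 1 := by
  set d : ℕ := ∏ ik : Fin n × Fin n, (A⁻¹ ik.1 ik.2).den with hd
  have hdvd : ∀ i k, (A⁻¹ i k).den ∣ d := fun i k =>
    Finset.dvd_prod_of_mem (fun ik : Fin n × Fin n => (A⁻¹ ik.1 ik.2).den)
      (Finset.mem_univ (i, k))
  have hint : ∀ i k, ∃ z : ℤ, (z : ℚ) = d * A⁻¹ i k := by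
    intro i k
    obtain ⟨t, ht⟩ := hdvd i k
    refine ⟨t * (A⁻¹ i k).num, ?_⟩
    have h1 : ((A⁻¹ i k).den : ℚ) * A⁻¹ i k = (A⁻¹ i k).num := Rat.den_mul_eq_num _
    rw [ht]
    push_cast
    rw [← h1]
    ring
  choose z hz using hint
  refine ⟨Matrix.of z, d, ?_, ?_⟩
  · exact Nat.one_le_iff_ne_zero.mpr (Finset.prod_ne_zero_iff.mpr fun ik _ => (Rat.den_ne_zero _))
  · have h1 : (Matrix.of z).map (Int.cast : ℤ → ℚ) = (d : ℚ) • A⁻¹ := by
      ext i k
      rw [Matrix.map_apply, Matrix.of_apply, hz i k, Matrix.smul_apply, smul_eq_mul]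
    rw [h1, Matrix.smul_mul, Matrix.nonsing_inv_mul A (isUnit_iff_ne_zero.mpr hA)]

/-- homogeneity of a Hasse derivative -/
theorem MH_hd (hHD : ST_HD) {m n : ℕ} {r : Fin m → ℕ} {P : MvPolynomial (Fin m × Fin n) ℤ}
    (hP : MH r P) (J0 : Fin m × Fin n →₀ ℕ) :
    MH (fun h => r h - ∑ i, J0 (h, i)) (hd J0 P) := by
  intro J hJ h
  rw [(hHD (Fin m × Fin n) ℤ).1 P J J0] at hJ
  have h1 := hP (J + J0) (right_ne_zero_of_mul hJ) h
  simp only [Finsupp.add_apply, Finset.sum_add_distrib] at h1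
  show ∑ i, J (h, i) = r h - ∑ i, J0 (h, i)
  omega

/-- the numerical heart -/
theorem num_bound {m n : ℕ} (u u' : Fin m → Fin n → ℝ) (g : Fin n → ℝ) (w : Fin m → ℝ)
    (L ε : ℝ) (hL : 0 < L) (hε : 0 < ε) (hu : ∀ h i, 0 ≤ u h i) (hu1 : ∀ h i, u h i ≤ 1)
    (hu' : ∀ h i, 0 ≤ u' h i)
    (hs' : ∀ i, ∑ h, u' h i ≤ ε) (hs : ∀ i, |∑ h, (u h i + u' h i) - m / n| ≤ ε * m)
    (hw : ∀ h, L ≤ w h ∧ w h ≤ (1 + ε) * L) :
    ∑ h, ∑ i, u h i * g i * w h ≤
      L * ((m : ℝ) / n * ∑ i, g i + (∑ i, |g i|) * (ε * m + ε + ε * m)) := by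
  rw [Finset.sum_comm]
  have hi : ∀ i, ∑ h, u h i * g i * w h ≤
      L * ((m : ℝ) / n * g i + |g i| * (ε * m + ε + ε * m)) := by
    intro i
    have hU0 : 0 ≤ ∑ h, u' h i := Finset.sum_nonneg fun h _ => hu' h i
    have hUm : ∑ h, u h i ≤ m := by
      calc ∑ h, u h i ≤ ∑ _h : Fin m, (1 : ℝ) := Finset.sum_le_sum fun h _ => hu1 h i
        _ = m := by simp
    have hs2 := hs i
    rw [Finset.sum_add_distrib, abs_le] at hs2
    have hs3 := hs' i
    have hUn : |∑ h, u h i - m / n| ≤ ε * m + ε := by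
      rw [abs_le]
      constructor <;> linarith [hs2.1, hs2.2]
    have h1 : ∑ h, u h i * g i * w h ≤ ∑ h, (u h i * g i * L + |g i| * (ε * L) * u h i) := by
      apply Finset.sum_le_sum
      intro h _
      have hw1 := (hw h).1
      have hw2 := (hw h).2
      have h2 : g i * (w h - L) ≤ |g i| * (ε * L) := by
        have h3 : g i * (w h - L) ≤ |g i| * (w h - L) :=
          mul_le_mul_of_nonneg_right (le_abs_self _) (by linarith)
        have h4 : |g i| * (w h - L) ≤ |g i| * (ε * L) :=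
          mul_le_mul_of_nonneg_left (by linarith) (abs_nonneg _)
        linarith
      have h5 := mul_le_mul_of_nonneg_left h2 (hu h i)
      have h6 : u h i * (g i * (w h - L)) = u h i * g i * w h - u h i * g i * L := by ring
      have h7 : u h i * (|g i| * (ε * L)) = |g i| * (ε * L) * u h i := by ring
      linarith
    have h2 : ∑ h, (u h i * g i * L + |g i| * (ε * L) * u h i) =
        g i * L * ∑ h, u h i + |g i| * (ε * L) * ∑ h, u h i := by
      rw [Finset.sum_add_distrib, Finset.mul_sum, Finset.mul_sum]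
      congr 1
      exact Finset.sum_congr rfl fun h _ => by ring
    have h3 : |g i| * (ε * L) * ∑ h, u h i ≤ |g i| * (ε * L) * m :=
      mul_le_mul_of_nonneg_left hUm (by positivity)
    have h4 : g i * ∑ h, u h i ≤ g i * (m / n) + |g i| * (ε * m + ε) := by
      have h5 : g i * (∑ h, u h i - m / n) ≤ |g i| * |∑ h, u h i - m / n| := by
        rw [← abs_mul]; exact le_abs_self _
      have h6 : |g i| * |∑ h, u h i - m / n| ≤ |g i| * (ε * m + ε) :=
        mul_le_mul_of_nonneg_left hUn (abs_nonneg _)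
      have h7 : g i * (∑ h, u h i - m / n) = g i * ∑ h, u h i - g i * (m / n) := by ring
      linarith
    have h5 : g i * L * ∑ h, u h i ≤ L * (g i * (m / n) + |g i| * (ε * m + ε)) := by
      have h6 := mul_le_mul_of_nonneg_left h4 hL.le
      have h7 : L * (g i * ∑ h, u h i) = g i * L * ∑ h, u h i := by ring
      linarith
    have h8 : L * ((m : ℝ) / n * g i + |g i| * (ε * m + ε + ε * m)) =
        L * (g i * (m / n) + |g i| * (ε * m + ε)) + |g i| * (ε * L) * m := by ring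
    linarith
  calc ∑ i, ∑ h, u h i * g i * w h
      ≤ ∑ i, L * ((m : ℝ) / n * g i + |g i| * (ε * m + ε + ε * m)) :=
        Finset.sum_le_sum fun i _ => hi i
    _ = L * ((m : ℝ) / n * ∑ i, g i + (∑ i, |g i|) * (ε * m + ε + ε * m)) := by
        rw [← Finset.mul_sum, Finset.sum_add_distrib, ← Finset.mul_sum, ← Finset.sum_mul]

/-- the product bound at one place -/
theorem prod_bound {m n : ℕ} (r : Fin m → ℕ) (hr : ∀ h, 1 ≤ r h) (J J' : Fin m × Fin n →₀ ℕ)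
    (g : Fin n → ℝ) (Q : Fin m → ℝ) (K L ε : ℝ) (hK : 1 ≤ K) (hQ : ∀ h, 1 ≤ Q h) (hL : 0 < L)
    (hε : 0 < ε) (hw : ∀ h, L ≤ r h * Real.log (Q h) ∧ r h * Real.log (Q h) ≤ (1 + ε) * L)
    (hMH : ∀ h, ∑ i, (J + J') (h, i) = r h)
    (hs' : ∑ hi : Fin m × Fin n, (J' hi : ℝ) / r hi.1 ≤ ε)
    (hs : ∀ i, |∑ h, ((J + J') (h, i) : ℝ) / r h - m / n| ≤ ε * m)
    (y : Fin m × Fin n → ℝ) (hy0 : ∀ hi, 0 ≤ y hi) (hy : ∀ h i, y (h, i) ≤ K * Q h ^ g i) :
    ∏ hi : Fin m × Fin n, y hi ^ J hi ≤ K ^ (∑ h, r h) *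
      Real.exp (L * ((m : ℝ) / n * ∑ i, g i + (∑ i, |g i|) * (ε * m + ε + ε * m))) := by
  have hrpos : ∀ h, (0 : ℝ) < r h := fun h => by exact_mod_cast (hr h)
  have hQpos : ∀ h, 0 < Q h := fun h => lt_of_lt_of_le zero_lt_one (hQ h)
  have hJr : ∀ h i, (J (h, i) : ℝ) ≤ r h := by
    intro h i
    have h1 : J (h, i) ≤ ∑ i, (J + J') (h, i) := by
      calc J (h, i) ≤ (J + J') (h, i) := by rw [Finsupp.add_apply]; exact Nat.le_add_right _ _
        _ ≤ ∑ i, (J + J') (h, i) :=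
          Finset.single_le_sum (f := fun i => (J + J') (h, i)) (fun _ _ => Nat.zero_le _)
            (Finset.mem_univ i)
    rw [hMH h] at h1
    exact_mod_cast h1
  have hsumJ : ∑ hi : Fin m × Fin n, J hi ≤ ∑ h, r h := by
    rw [Fintype.sum_prod_type]
    apply Finset.sum_le_sum
    intro h _
    rw [← hMH h]
    apply Finset.sum_le_sum
    intro i _
    rw [Finsupp.add_apply]
    exact Nat.le_add_right _ _
  have hstep : ∏ hi : Fin m × Fin n, y hi ^ J hi ≤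
      ∏ hi : Fin m × Fin n, (K ^ J hi * Real.exp (((J hi : ℝ) / r hi.1) * g hi.2 *
        (r hi.1 * Real.log (Q hi.1)))) := by
    apply Finset.prod_le_prod
    · intro hi _
      exact pow_nonneg (hy0 hi) _
    · intro hi _
      have h1 : y hi ^ J hi ≤ (K * Q hi.1 ^ g hi.2) ^ J hi :=
        pow_le_pow_left₀ (hy0 hi) (hy hi.1 hi.2) _
      have h2 : (K * Q hi.1 ^ g hi.2) ^ J hi = K ^ J hi * Real.exp (((J hi : ℝ) / r hi.1) * g hi.2 *
        (r hi.1 * Real.log (Q hi.1))) := by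
        rw [mul_pow]
        congr 1
        rw [← Real.rpow_natCast, ← Real.rpow_mul (hQpos hi.1).le, Real.rpow_def_of_pos (hQpos hi.1)]
        congr 1
        have := (hrpos hi.1).ne'
        field_simp
      rw [← h2]
      exact h1
  refine le_trans hstep ?_
  rw [Finset.prod_mul_distrib, Finset.prod_pow_eq_pow_sum, ← Real.exp_sum]
  apply mul_le_mul
  · exact pow_le_pow_right₀ hK hsumJ
  · apply Real.exp_le_exp.mpr
    rw [Fintype.sum_prod_type]
    apply num_bound (fun h i => (J (h, i) : ℝ) / r h) (fun h i => (J' (h, i) : ℝ) / r h) g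
      (fun h => r h * Real.log (Q h)) L ε hL hε
    · intro h i
      have := hrpos h
      positivity
    · intro h i
      exact (div_le_one (hrpos h)).mpr (hJr h i)
    · intro h i
      have := hrpos h
      positivity
    · intro i
      refine le_trans ?_ hs'
      rw [Fintype.sum_prod_type, Finset.sum_comm]
      exact Finset.single_le_sum (f := fun i => ∑ h, (J' (h, i) : ℝ) / r h)
        (fun i _ => Finset.sum_nonneg fun h _ => by have := hrpos h; positivity)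
        (Finset.mem_univ i)
    · intro i
      have h1 := hs i
      have h2 : ∑ h, ((J (h, i) : ℝ) / r h + (J' (h, i) : ℝ) / r h) =
          ∑ h, ((J + J') (h, i) : ℝ) / r h := by
        apply Finset.sum_congr rfl
        intro h _
        rw [Finsupp.add_apply]
        push_cast
        ring
      rw [h2]
      exact h1
    · exact hw
  · exact (Real.exp_pos _).le
  · positivity

/-- the norm of the derivative of the auxiliary polynomial -/
theorem l1_hd_bound (hL1 : ST_L1) {m n : ℕ} {r : Fin m → ℕ} {P : MvPolynomial (Fin m × Fin n) ℤ}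
    (hP : MH r P) (D : ℝ) (hD : 1 ≤ D) (hco : ∀ J, |((P.coeff J : ℤ) : ℝ)| ≤ D ^ (∑ h, r h))
    (J0 : Fin m × Fin n →₀ ℕ) :
    (l1 (hd J0 P) : ℝ) ≤ (4 ^ n * D) ^ (∑ h, r h) := by
  obtain ⟨_, _, _, h4, h5, _⟩ := hL1 (Fin m × Fin n)
  set R := ∑ h, r h with hR
  have hD0 : (0 : ℝ) ≤ D := le_trans zero_le_one hD
  have hdeg : ∀ s : Fin m × Fin n, P.degreeOf s ≤ r s.1 := by
    intro s
    rw [MvPolynomial.degreeOf_le_iff]
    intro J hJ
    have h1 := hP J (MvPolynomial.mem_support_iff.mp hJ) s.1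
    rw [← h1]
    exact Finset.single_le_sum (f := fun i => J (s.1, i)) (fun _ _ => Nat.zero_le _)
      (Finset.mem_univ s.2)
  have hsum : ∑ s : Fin m × Fin n, r s.1 = n * R := by
    rw [Fintype.sum_prod_type]
    simp [hR, Finset.mul_sum]
  have hfl : ∀ J, |P.coeff J| ≤ ⌊D ^ R⌋ := by
    intro J
    apply Int.le_floor.mpr
    have := hco J
    push_cast
    exact this
  have h6 := h4 P (fun s => r s.1) ⌊D ^ R⌋ hdeg hfl
  have h7 := h5 P (fun s => r s.1) J0 hdeg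
  rw [hsum] at h6 h7
  have h6' : (l1 P : ℝ) ≤ 2 ^ (n * R) * D ^ R := by
    have h8 : ((l1 P : ℤ) : ℝ) ≤ ((2 ^ (n * R) * ⌊D ^ R⌋ : ℤ) : ℝ) := by exact_mod_cast h6
    refine le_trans h8 ?_
    push_cast
    exact mul_le_mul_of_nonneg_left (Int.floor_le _) (by positivity)
  have h7' : (l1 (hd J0 P) : ℝ) ≤ 2 ^ (n * R) * (l1 P : ℝ) := by
    have h8 : ((l1 (hd J0 P) : ℤ) : ℝ) ≤ ((2 ^ (n * R) * l1 P : ℤ) : ℝ) := by exact_mod_cast h7
    refine le_trans h8 ?_
    push_cast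
    exact le_rfl
  calc (l1 (hd J0 P) : ℝ) ≤ 2 ^ (n * R) * (l1 P : ℝ) := h7'
    _ ≤ 2 ^ (n * R) * (2 ^ (n * R) * D ^ R) := mul_le_mul_of_nonneg_left h6' (by positivity)
    _ = (4 ^ n * D) ^ R := by
        rw [mul_pow, ← pow_mul, ← mul_assoc, ← mul_pow]
        norm_num

/-- (VAN) -/
theorem VAN (hAV : ST_AV) (hHD : ST_HD) (hL1 : ST_L1) (hLSB : ST_LSB) (hSIEG : ST_SIEG)
    (hDSUP : ST_DSUP) (hEVAL : ST_EVAL) : ST_VAN := by
  intro n S A c δ hn hS hA hc hδ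
  have hex : ∀ v : {v // v ∈ plc S}, ∃ (N : Matrix (Fin n) (Fin n) ℤ) (d : ℕ), 1 ≤ d ∧
      N.map (Int.cast : ℤ → ℚ) * A v = (d : ℚ) • 1 :=
    fun v => exists_int_inv (A v) (hA v v.2)
  choose N d hd1 hNA using hex
  set γ : Option ℕ → Fin n → ℝ := fun v i => c v i - if v = none then δ else 0 with hγ
  set Γ : ℝ := 1 + ∑ v ∈ plc S, ∑ i, |γ v i| with hΓ
  have hΓ0 : 0 ≤ ∑ v ∈ plc S, ∑ i, |γ v i| :=
    Finset.sum_nonneg fun v _ => Finset.sum_nonneg fun i _ => abs_nonneg _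
  have hΓ1 : 1 ≤ Γ := by rw [hΓ]; linarith
  set ε : ℝ := δ / (8 * Γ) with hε
  have hε0 : 0 < ε := by rw [hε]; positivity
  have hεΓ : ε * Γ = δ / 8 := by rw [hε]; field_simp
  obtain ⟨m0, hm0⟩ := hSIEG n {v // v ∈ plc S} N ε hn hε0
  set m := max m0 1 with hm
  have hm1 : 1 ≤ m := le_max_right _ _
  obtain ⟨C1, hC1, hP⟩ := hm0 m (le_max_left _ _)
  refine ⟨ε, ε, m, hε0, hε0, hm1, ?_⟩
  intro K hK
  -- the constant for EVAL
  obtain ⟨C2, hC2, hdC2, hNC2⟩ : ∃ C2 : ℝ, 1 ≤ C2 ∧ (∀ v, (d v : ℝ) ≤ C2) ∧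
      ∀ v i k, (n : ℝ) * |(N v i k : ℝ)| ≤ C2 := by
    refine ⟨1 + ∑ v, (d v : ℝ) + ∑ v, ∑ i, ∑ k, (n : ℝ) * |(N v i k : ℝ)|, ?_, ?_, ?_⟩
    · have h1 : 0 ≤ ∑ v, (d v : ℝ) := Finset.sum_nonneg fun v _ => Nat.cast_nonneg _
      have h2 : 0 ≤ ∑ v, ∑ i, ∑ k, (n : ℝ) * |(N v i k : ℝ)| :=
        Finset.sum_nonneg fun v _ => Finset.sum_nonneg fun i _ => Finset.sum_nonneg fun k _ => by
          positivity
      linarith
    · intro v
      have h1 : (d v : ℝ) ≤ ∑ v, (d v : ℝ) :=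
        Finset.single_le_sum (f := fun v => (d v : ℝ)) (fun v _ => Nat.cast_nonneg _)
          (Finset.mem_univ v)
      have h2 : 0 ≤ ∑ v, ∑ i, ∑ k, (n : ℝ) * |(N v i k : ℝ)| :=
        Finset.sum_nonneg fun v _ => Finset.sum_nonneg fun i _ => Finset.sum_nonneg fun k _ => by
          positivity
      linarith
    · intro v i k
      have h1 : 0 ≤ ∑ v, (d v : ℝ) := Finset.sum_nonneg fun v _ => Nat.cast_nonneg _
      have h2 : ∑ i, ∑ k, (n : ℝ) * |(N v i k : ℝ)| ≤ ∑ v, ∑ i, ∑ k, (n : ℝ) * |(N v i k : ℝ)| :=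
        Finset.single_le_sum (f := fun v => ∑ i, ∑ k, (n : ℝ) * |(N v i k : ℝ)|)
          (fun v _ => Finset.sum_nonneg fun i _ => Finset.sum_nonneg fun k _ => by positivity)
          (Finset.mem_univ v)
      have h3 : ∑ k, (n : ℝ) * |(N v i k : ℝ)| ≤ ∑ i, ∑ k, (n : ℝ) * |(N v i k : ℝ)| :=
        Finset.single_le_sum (f := fun i => ∑ k, (n : ℝ) * |(N v i k : ℝ)|)
          (fun i _ => Finset.sum_nonneg fun k _ => by positivity) (Finset.mem_univ i)
      have h4 : (n : ℝ) * |(N v i k : ℝ)| ≤ ∑ k, (n : ℝ) * |(N v i k : ℝ)| :=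
        Finset.single_le_sum (f := fun k => (n : ℝ) * |(N v i k : ℝ)|)
          (fun k _ => by positivity) (Finset.mem_univ k)
      linarith
  set C3 : ℝ := C2 * (4 ^ n * C1) * K with hC3
  have hC3pos : 1 ≤ C3 := by
    rw [hC3]
    have h1 : (1 : ℝ) ≤ 4 ^ n := one_le_pow₀ (by norm_num)
    exact one_le_mul_of_one_le_of_one_le
      (one_le_mul_of_one_le_of_one_le hC2 (one_le_mul_of_one_le_of_one_le h1 hC1)) hK
  set W : ℝ := ((plc S).card : ℝ) * Real.log C3 with hW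
  have hW0 : 0 ≤ W := mul_nonneg (Nat.cast_nonneg _) (Real.log_nonneg hC3pos)
  set T : ℝ := 2 * (1 + ε) * W / δ + 1 with hT
  have hT0 : 0 < T := by rw [hT]; positivity
  refine ⟨max C1 (Real.exp T), le_trans hC1 (le_max_left _ _), ?_⟩
  intro r Q L hr hL hQ
  obtain ⟨P, hP0, hMH, hco, hsup⟩ := hP r hr
  refine ⟨P, hP0, hMH, ?_, ?_⟩
  · intro J
    refine le_trans (hco J) ?_
    exact pow_le_pow_left₀ (le_trans zero_le_one hC1) (le_max_left _ _) _
  intro J0 hJ0 x hx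
  by_contra hne
  set R := ∑ h, r h with hR
  set F := hd J0 P with hF
  set r' : Fin m → ℕ := fun h => r h - ∑ i, J0 (h, i) with hr'
  have hMHF : MH r' F := MH_hd hHD hMH J0
  have hR' : ∑ h, r' h ≤ R := Finset.sum_le_sum fun h _ => Nat.sub_le _ _
  have hQ1 : ∀ h, 1 ≤ Q h := by
    intro h
    have h1 := (hQ h).1
    exact le_trans hC1 (le_trans (le_max_left _ _) h1)
  have hw : ∀ h, L ≤ r h * Real.log (Q h) ∧ r h * Real.log (Q h) ≤ (1 + ε) * L :=
    fun h => (hQ h).2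
  set E : Option ℕ → ℝ := fun v =>
    L * ((m : ℝ) / n * ∑ i, γ v i + (∑ i, |γ v i|) * (ε * m + ε + ε * m)) with hE
  have hbase : (0 : ℝ) ≤ C3 ^ R := pow_nonneg (le_trans zero_le_one hC3pos) _
  have hloc : ∀ v ∈ plc S, av v ((MvPolynomial.eval (bl x) F : ℤ) : ℚ) ≤ C3 ^ R * Real.exp (E v) := by
    intro v hv
    have hb0 : 0 ≤ K ^ R * Real.exp (E v) := by
      have : 0 ≤ K := le_trans zero_le_one hK
      positivity
    have h1 := hEVAL m n S hS v hv (A v) (N ⟨v, hv⟩) (d ⟨v, hv⟩) C2 (hd1 ⟨v, hv⟩) (hNA ⟨v, hv⟩)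
      (hdC2 ⟨v, hv⟩) (hNC2 ⟨v, hv⟩) hC2 r' F x (K ^ R * Real.exp (E v)) hMHF hb0 ?_
    · refine le_trans h1 ?_
      have h2 : (l1 F : ℝ) ≤ (4 ^ n * C1) ^ R := l1_hd_bound hL1 hMH C1 hC1 hco J0
      have h3 : C2 ^ (∑ h, r' h) ≤ C2 ^ R := pow_le_pow_right₀ hC2 hR'
      have h4 : C2 ^ (∑ h, r' h) * (l1 F : ℝ) ≤ C2 ^ R * (4 ^ n * C1) ^ R := by
        apply mul_le_mul h3 h2
        · have : (0 : ℤ) ≤ l1 F := Finset.sum_nonneg fun J _ => abs_nonneg _
          exact_mod_cast this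
        · exact pow_nonneg (le_trans zero_le_one hC2) _
      calc C2 ^ (∑ h, r' h) * (l1 F : ℝ) * (K ^ R * Real.exp (E v))
          ≤ C2 ^ R * (4 ^ n * C1) ^ R * (K ^ R * Real.exp (E v)) :=
            mul_le_mul_of_nonneg_right h4 hb0
        _ = C3 ^ R * Real.exp (E v) := by rw [hC3, mul_pow (C2 * (4 ^ n * C1)) K, mul_pow C2 (4 ^ n * C1)]; ring
    · intro J hJ
      have hNdet : ((N ⟨v, hv⟩).map (Int.cast : ℤ → ℚ)).det ≠ 0 := by
        intro h0
        have h2 := congrArg Matrix.det (hNA ⟨v, hv⟩)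
        rw [Matrix.det_mul, h0, zero_mul, Matrix.det_smul, Matrix.det_one, mul_one] at h2
        have h3 : ((d ⟨v, hv⟩ : ℕ) : ℚ) ≠ 0 := by
          have := hd1 ⟨v, hv⟩
          exact_mod_cast (Nat.one_le_iff_ne_zero.mp this)
        exact pow_ne_zero _ h3 h2.symm
      have hJQ : (lsub ((N ⟨v, hv⟩).map (Int.cast : ℤ → ℚ)) (hd J0 (toQ P))).coeff J ≠ 0 := by
        have h2 : toQ (hd J0 P) = hd J0 (toQ P) :=
          (hHD (Fin m × Fin n) ℤ).2.2.2.2.2.2.2.2 P J0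
        rw [← h2, ← toQ_lsub, toQ_coeff]
        exact_mod_cast hJ
      obtain ⟨J', hJ'1, hJ'2⟩ := hDSUP m n _ (toQ P) J0 J hNdet hJQ
      rw [← toQ_lsub, toQ_coeff] at hJ'2
      have hJ'3 : (lsub (N ⟨v, hv⟩) P).coeff (J + J') ≠ 0 := by exact_mod_cast hJ'2
      have habs : ∃ a : ℤ, ∀ i k, |N ⟨v, hv⟩ i k| ≤ a := by
        refine ⟨∑ i, ∑ k, |N ⟨v, hv⟩ i k|, fun i k => ?_⟩
        calc |N ⟨v, hv⟩ i k| ≤ ∑ k, |N ⟨v, hv⟩ i k| :=
              Finset.single_le_sum (f := fun k => |N ⟨v, hv⟩ i k|) (fun _ _ => abs_nonneg _)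
                (Finset.mem_univ k)
          _ ≤ ∑ i, ∑ k, |N ⟨v, hv⟩ i k| :=
              Finset.single_le_sum (f := fun i => ∑ k, |N ⟨v, hv⟩ i k|)
                (fun _ _ => Finset.sum_nonneg fun _ _ => abs_nonneg _) (Finset.mem_univ i)
      obtain ⟨a, ha⟩ := habs
      have hMHN := (hLSB m n r P (N ⟨v, hv⟩) a ha hMH).1 (J + J') hJ'3
      have hsum' : ∑ hi : Fin m × Fin n, (J' hi : ℝ) / r hi.1 ≤ ε := by
        refine le_trans (le_of_eq ?_) hJ0
        rw [Fintype.sum_prod_type, Fintype.sum_prod_type]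
        apply Finset.sum_congr rfl
        intro h _
        show ∑ i, (J' (h, i) : ℝ) / r h = ∑ i, (J0 (h, i) : ℝ) / r h
        rw [← Finset.sum_div, ← Finset.sum_div]
        have h2 := hJ'1 h
        congr 1
        exact_mod_cast h2
      exact prod_bound r hr J J' (γ v) Q K L ε hK hQ1 hL hε0 hw hMHN hsum'
        (hsup ⟨v, hv⟩ (J + J') hJ'3)
        (fun hi => av v ((A v).mulVec (cv (x hi.1)) hi.2)) (fun hi => av_nonneg hAV _ _)
        (fun h i => hx v hv h i)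
  -- the product formula
  have hprod : 1 ≤ ∏ v ∈ plc S, av v ((MvPolynomial.eval (bl x) F : ℤ) : ℚ) :=
    (hAV.2.2 S hS).2.2.2.2.2.2.1 _ hne
  have hprod2 : ∏ v ∈ plc S, av v ((MvPolynomial.eval (bl x) F : ℤ) : ℚ) ≤
      ∏ v ∈ plc S, (C3 ^ R * Real.exp (E v)) :=
    Finset.prod_le_prod (fun v _ => av_nonneg hAV _ _) hloc
  rw [Finset.prod_mul_distrib, Finset.prod_const, ← Real.exp_sum] at hprod2
  have hsumE : ∑ v ∈ plc S, E v ≤ -(L * m * δ / 2) := by
    have hsumγ : ∑ v ∈ plc S, ∑ i, γ v i ≤ -(n * δ) := by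
      have h1 : ∑ v ∈ plc S, ∑ i, γ v i = ∑ v ∈ plc S, ∑ i, c v i - n * δ := by
        rw [hγ]
        simp only [Finset.sum_sub_distrib]
        congr 1
        simp only [Finset.sum_const, Finset.card_univ, Fintype.card_fin, nsmul_eq_mul]
        rw [← Finset.mul_sum, Finset.sum_ite_eq' (plc S) none (fun _ => δ), if_pos]
        unfold plc
        exact Finset.none_mem_insertNone
      rw [h1]
      linarith
    have hEs : ∑ v ∈ plc S, E v = L * ((m : ℝ) / n * ∑ v ∈ plc S, ∑ i, γ v i +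
        (∑ v ∈ plc S, ∑ i, |γ v i|) * (ε * m + ε + ε * m)) := by
      rw [hE]
      rw [← Finset.mul_sum, Finset.sum_add_distrib, ← Finset.mul_sum, ← Finset.sum_mul]
    rw [hEs]
    have hn0 : (0 : ℝ) < n := by exact_mod_cast hn
    have hmR : (1 : ℝ) ≤ m := by exact_mod_cast hm1
    have h2 : (m : ℝ) / n * ∑ v ∈ plc S, ∑ i, γ v i ≤ -(m * δ) := by
      have h3 : (m : ℝ) / n * ∑ v ∈ plc S, ∑ i, γ v i ≤ (m : ℝ) / n * (-(n * δ)) :=
        mul_le_mul_of_nonneg_left hsumγ (by positivity)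
      have h4 : (m : ℝ) / n * (-(n * δ)) = -(m * δ) := by field_simp
      linarith
    have h5 : (∑ v ∈ plc S, ∑ i, |γ v i|) * (ε * m + ε + ε * m) ≤ 3 * δ * m / 8 := by
      have h6 : (∑ v ∈ plc S, ∑ i, |γ v i|) ≤ Γ := by rw [hΓ]; linarith
      have h7 : ε * m + ε + ε * m ≤ 3 * (ε * m) := by
        have : ε ≤ ε * m := le_mul_of_one_le_right hε0.le hmR
        linarith
      calc (∑ v ∈ plc S, ∑ i, |γ v i|) * (ε * m + ε + ε * m) ≤ Γ * (3 * (ε * m)) :=
            mul_le_mul h6 h7 (by positivity) (by linarith)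
        _ = 3 * (ε * Γ) * m := by ring
        _ = 3 * δ * m / 8 := by rw [hεΓ]; ring
    have h8 : (m : ℝ) / n * ∑ v ∈ plc S, ∑ i, γ v i +
        (∑ v ∈ plc S, ∑ i, |γ v i|) * (ε * m + ε + ε * m) ≤ -(m * δ / 2) := by
      have : 0 < (m : ℝ) * δ := by positivity
      nlinarith
    have h9 := mul_le_mul_of_nonneg_left h8 hL.le
    have h10 : L * -(m * δ / 2) = -(L * m * δ / 2) := by ring
    linarith
  have hfin : 1 ≤ (C3 ^ R) ^ (plc S).card * Real.exp (-(L * m * δ / 2)) := by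
    refine le_trans hprod (le_trans hprod2 ?_)
    exact mul_le_mul_of_nonneg_left (Real.exp_le_exp.mpr hsumE) (pow_nonneg hbase _)
  have hlog : 0 ≤ (R : ℝ) * W - L * m * δ / 2 := by
    have h1 := Real.log_le_log zero_lt_one hfin
    have hC3p : 0 < C3 := lt_of_lt_of_le zero_lt_one hC3pos
    rw [Real.log_one, Real.log_mul (pow_ne_zero _ (pow_ne_zero _ hC3p.ne')) (Real.exp_ne_zero _),
      Real.log_exp, ← pow_mul, Real.log_pow] at h1
    rw [hW]
    push_cast at h1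
    nlinarith
  -- contradiction
  have hRT : (R : ℝ) * T ≤ m * ((1 + ε) * L) := by
    have h1 : ∀ h, (r h : ℝ) * T ≤ (1 + ε) * L := by
      intro h
      have h2 : T ≤ Real.log (Q h) := by
        rw [Real.le_log_iff_exp_le (lt_of_lt_of_le zero_lt_one (hQ1 h))]
        exact le_trans (le_max_right _ _) (hQ h).1
      have h3 : (r h : ℝ) * T ≤ r h * Real.log (Q h) :=
        mul_le_mul_of_nonneg_left h2 (Nat.cast_nonneg _)
      exact le_trans h3 (hw h).2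
    have h4 : (R : ℝ) * T = ∑ h, (r h : ℝ) * T := by
      rw [← Finset.sum_mul, hR]
      push_cast
      rfl
    rw [h4]
    calc ∑ h, (r h : ℝ) * T ≤ ∑ _h : Fin m, (1 + ε) * L := Finset.sum_le_sum fun h _ => h1 h
      _ = m * ((1 + ε) * L) := by simp
  have hRpos : (0 : ℝ) < R := by
    have h1 : 1 ≤ r ⟨0, hm1⟩ := hr _
    have h2 : r ⟨0, hm1⟩ ≤ R :=
      Finset.single_le_sum (f := r) (fun _ _ => Nat.zero_le _) (Finset.mem_univ _)
    exact_mod_cast (lt_of_lt_of_le Nat.zero_lt_one (le_trans h1 h2))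
  have h1 : (R : ℝ) * (2 * (1 + ε) * W / δ) < m * ((1 + ε) * L) := by
    have : (R : ℝ) * T = R * (2 * (1 + ε) * W / δ) + R := by rw [hT]; ring
    linarith
  have h2 : (R : ℝ) * (2 * (1 + ε) * W / δ) = (1 + ε) * (2 * (R * W) / δ) := by ring
  have h3 : (m : ℝ) * ((1 + ε) * L) = (1 + ε) * (m * L) := by ring
  rw [h2, h3] at h1
  have h4 : 2 * ((R : ℝ) * W) / δ < m * L := lt_of_mul_lt_mul_left h1 (by positivity)
  rw [div_lt_iff₀ hδ] at h4
  nlinarith

end Pool.Agent.Helper77.SUB
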